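import Mathlib

set_option autoImplicit false
open Set Filter Topology MeasureTheory
open scoped ContDiff

namespace Pool.Agent.Results.MP_885c89_an.No

variable {n : ℕ}

/-- The derivative in the `i`-th coordinate. -/
noncomputable def D (i : Fin n) (f : (Fin n → ℝ) → ℝ) (x : Fin n → ℝ) : ℝ := fderiv ℝ f x (Pi.single i 1)

/-- Minus the Laplacian. -/
noncomputable def nlap (f : (Fin n → ℝ) → ℝ) (x : Fin n → ℝ) : ℝ := -∑ i, D i (D i f) x

lemma Dsm {f : (Fin n → ℝ) → ℝ} (h : ContDiff ℝ ∞ f) (i : Fin n) : ContDiff ℝ ∞ (D i f) :=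
  (h.fderiv_right (by simp)).clm_apply contDiff_const

lemma Lsm {f : (Fin n → ℝ) → ℝ} (h : ContDiff ℝ ∞ f) : ContDiff ℝ ∞ (nlap f) :=
  (ContDiff.sum fun i _ => Dsm (Dsm h i) i).neg

lemma Lc {f : (Fin n → ℝ) → ℝ} (h : HasCompactSupport f) : HasCompactSupport (nlap f) :=
  .intro h fun x hx => by
    have : ∀ i, D i (D i f) x = 0 := fun i => image_eq_zero_of_notMem_tsupport fun k => hx
      (tsupport_fderiv_apply_subset ℝ _ (tsupport_fderiv_apply_subset ℝ _ k))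
    simp [nlap, this]

lemma ibp {u φ : (Fin n → ℝ) → ℝ} (hu : ContDiff ℝ ∞ u) (hφ : ContDiff ℝ ∞ φ) (hc : HasCompactSupport φ)
    (k : ℕ) : ∫ x, u x * nlap^[k] φ x = ∫ x, nlap^[k] u x * φ x := by
  have I : ∀ {u φ : (Fin n → ℝ) → ℝ}, ContDiff ℝ ∞ u → ContDiff ℝ ∞ φ → HasCompactSupport φ →
      Integrable fun x => u x * φ x := fun hu hφ hc =>
    (hu.continuous.mul hφ.continuous).integrable_of_hasCompactSupport hc.mul_left
  have J : ∀ {u φ : (Fin n → ℝ) → ℝ}, ContDiff ℝ ∞ u → ContDiff ℝ ∞ φ → HasCompactSupport φ → ∀ i,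
      ∫ x, u x * D i φ x = -∫ x, D i u x * φ x := fun hu hφ hc i =>
    integral_mul_fderiv_eq_neg_fderiv_mul_of_integrable (I (Dsm hu i) hφ hc)
      (I hu (Dsm hφ i) (hc.fderiv_apply ℝ _)) (I hu hφ hc) (fun _ _ => hu.differentiable (by simp) _)
      fun _ _ => hφ.differentiable (by simp) _
  induction k generalizing u with
  | zero => rfl
  | succ k ih =>
    have : ContDiff ℝ ∞ (nlap^[k] φ) ∧ HasCompactSupport (nlap^[k] φ) :=
      Function.Iterate.rec (fun f => ContDiff ℝ ∞ f ∧ HasCompactSupport f) ⟨hφ, hc⟩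
        (fun _ h => ⟨Lsm h.1, Lc h.2⟩) k
    rw [Function.iterate_succ_apply', Function.iterate_succ_apply, ← ih (Lsm hu)]
    simp only [nlap, mul_neg, neg_mul, Finset.mul_sum, Finset.sum_mul, integral_neg]
    rw [integral_finsetSum _ fun i _ => I hu (Dsm (Dsm this.1 i) i)
      ((this.2.fderiv_apply ℝ _).fderiv_apply ℝ _),
      integral_finsetSum _ fun i _ => I (Dsm (Dsm hu i) i) this.1 this.2]
    congr 2; ext1 i
    rw [J hu (Dsm this.1 i) (this.2.fderiv_apply ℝ _), J (Dsm hu i) this.1 this.2, neg_neg]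

def sq (x : Fin n → ℝ) : ℝ := ∑ i, x i ^ 2

lemma step (j : Fin n) {f : (Fin n → ℝ) → ℝ} {g g1 g2 : ℝ → ℝ} {a b c d e : ℝ}
    (h1 : ∀ s, 1 < s → HasDerivAt g (g1 s) s) (h2 : ∀ s, 1 < s → HasDerivAt g1 (g2 s) s)
    (hf : ∀ x, 1 < sq x → f x = g (sq x) + a * sq x + b * (x j ^ 2 * sq x) + c * x j ^ 2 + d * x j ^ 4 + e) :
    ∀ x, 1 < sq x → nlap f x = -(4 * sq x * g2 (sq x) + 2 * n * g1 (sq x)) + -(2 * b) * sq x +
      -((2 * n + 8) * b + 12 * d) * x j ^ 2 + -(2 * n * a + 2 * c) := by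
  have o : IsOpen {x : Fin n → ℝ | 1 < sq x} := isOpen_lt continuous_const (by unfold sq; fun_prop)
  have p := fun (i : Fin n) (x : Fin n → ℝ) => hasFDerivAt_apply (𝕜 := ℝ) i x
  have hs : ∀ x : Fin n → ℝ, ∃ L : (Fin n → ℝ) →L[ℝ] ℝ, HasFDerivAt sq L x ∧ ∀ i, L (Pi.single i 1) = 2 * x i :=
    fun x => ⟨_, HasFDerivAt.fun_sum fun i _ => (p i x).pow 2, fun i => by simp [Pi.single_apply]⟩
  have k1 : ∀ i x, 1 < sq x → D i f x = g1 (sq x) * (2 * x i) + 2 * a * x i + b * (2 * (x j ^ 2 * x i) +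
      2 * (Pi.single i 1 : Fin n → ℝ) j * (x j * sq x)) + 2 * c * (Pi.single i 1 : Fin n → ℝ) j * x j +
      4 * d * (Pi.single i 1 : Fin n → ℝ) j * x j ^ 3 := fun i x hx => by
    obtain ⟨L, l1, l2⟩ := hs x
    rw [D, ((((((((h1 _ hx).comp_hasFDerivAt x l1).add (l1.const_mul a)).add ((((p j x).pow 2).mul l1).const_mul
      b)).add (((p j x).pow 2).const_mul c)).add (((p j x).pow 4).const_mul d)).add_const e).congr_of_eventuallyEq
      (eventually_of_mem (o.mem_nhds hx) hf)).fderiv]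
    simp [l2]; ring
  intro x hx
  obtain ⟨L, l1, l2⟩ := hs x
  have k2 : ∀ i, D i (D i f) x = 4 * g2 (sq x) * x i ^ 2 + 2 * g1 (sq x) + 2 * a + 2 * b * x j ^ 2 +
      if j = i then 2 * b * sq x + 8 * b * x j ^ 2 + 2 * c + 12 * d * x j ^ 2 else 0 := fun i => by
    rw [D, ((((((((h2 _ hx).comp_hasFDerivAt x l1).mul ((p i x).const_mul 2)).add ((p i x).const_mul _)).add
      ((((((p j x).pow 2).mul (p i x)).const_mul 2).add (((p j x).mul l1).const_mul _)).const_mul b)).add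
      ((p j x).const_mul _)).add (((p j x).pow 3).const_mul _)).congr_of_eventuallyEq
      (eventually_of_mem (o.mem_nhds hx) (k1 i))).fderiv]
    by_cases e : j = i
    · subst e; simp [l2]; ring
    · simp [l2, e]; ring
  simp only [nlap, k2, Finset.sum_add_distrib, ← Finset.mul_sum, Finset.sum_ite_eq, Finset.mem_univ, if_true,
    Finset.sum_const, Finset.card_univ, Fintype.card_fin, nsmul_eq_mul]
  rw [← sq]; ring

lemma integ {k : ℕ} (hk : 5 ≤ k) : Integrable fun x : Fin (k + 1) → ℝ =>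
    (1 + x 0 ^ 2) * ∏ i : Fin k, Real.exp (-(1 + x 0 ^ 2) * x i.succ ^ 2) := by
  refine ((volume_preserving_piFinSuccAbove (fun _ => ℝ) 0).integrable_comp_emb
    (MeasurableEquiv.measurableEmbedding _) (g := fun z : ℝ × (Fin k → ℝ) =>
      (1 + z.1 ^ 2) * ∏ i : Fin k, Real.exp (-(1 + z.1 ^ 2) * z.2 i ^ 2))).2 ?_
  rw [Measure.volume_eq_prod, integrable_prod_iff (Continuous.aestronglyMeasurable (by fun_prop))]
  refine ⟨.of_forall fun t => (Integrable.fintype_prod (f := fun (_ : Fin k) y => Real.exp (-(1 + t ^ 2) * y ^ 2))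
    fun _ => integrable_exp_neg_mul_sq (by positivity)).const_mul (1 + t ^ 2),
    (integrable_inv_one_add_sq.const_mul (√Real.pi ^ k)).mono' (AEStronglyMeasurable.integral_prod_right'
      (f := fun z : ℝ × (Fin k → ℝ) => ‖(1 + z.1 ^ 2) * ∏ i : Fin k, Real.exp (-(1 + z.1 ^ 2) * z.2 i ^ 2)‖)
      (Continuous.aestronglyMeasurable (by fun_prop))) (.of_forall fun t => ?_)⟩
  have t0 : 1 ≤ 1 + t ^ 2 := by nlinarith
  simp only [Real.norm_of_nonneg (by positivity : 0 ≤ (1 + t ^ 2) * ∏ i : Fin k, Real.exp _)]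
  rw [integral_const_mul, integral_fintype_prod_volume_eq_pow fun y => Real.exp (-(1 + t ^ 2) * y ^ 2),
    integral_gaussian, Real.norm_of_nonneg (by positivity), Real.sqrt_div Real.pi_pos.le, div_pow,
    Fintype.card_fin]
  have : √(1 + t ^ 2) ^ (2 * 2) ≤ √(1 + t ^ 2) ^ k := pow_le_pow_right₀ (Real.one_le_sqrt.2 t0) (by omega)
  rw [pow_mul, Real.sq_sqrt (by positivity)] at this
  calc _ ≤ (1 + t ^ 2) * (√Real.pi ^ k / (1 + t ^ 2) ^ 2) := by gcongr
    _ = _ := by field_simp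

lemma key {m k : ℕ} (hm : 3 ≤ m) (hk' : ((k + 1 : ℕ) : ℝ) = 2 * m) {u : (Fin (k + 1) → ℝ) → ℝ}
    (hu : ∀ x, 1 < sq x → u x = (2 * m : ℝ)⁻¹ * Real.log (sq x) +
      -1 * sq x + -1 * (x 0 ^ 2 * sq x) + 1 * x 0 ^ 2 + 1 * x 0 ^ 4 + 0) (r : ℕ) (hr : 1 ≤ r) :
    ∃ C a c e : ℝ, (2 ≤ r → a = 0 ∧ c = 0) ∧ (3 ≤ r → e = 0) ∧ (r = m → C = 0) ∧
      ∀ x, 1 < sq x → nlap^[r] u x = C * sq x ^ (-r : ℝ) + a * sq x + c * x 0 ^ 2 + e := by
  have m0 : (3 : ℝ) ≤ m := by exact_mod_cast hm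
  induction r, hr using Nat.le_induction with
  | base =>
    refine ⟨-(2 * m : ℝ)⁻¹ * (4 * m - 4), -(2 * -1), -((2 * (k + 1 : ℕ) + 8) * -1 + 12 * 1),
      -(2 * (k + 1 : ℕ) * -1 + 2 * 1), by omega, by omega, by omega, fun x hx => ?_⟩
    rw [Function.iterate_one, step 0 (g := fun s => (2 * m : ℝ)⁻¹ * Real.log s)
      (fun s hs => (Real.hasDerivAt_log (by linarith)).const_mul _)
      (fun s hs => (hasDerivAt_inv (by linarith)).const_mul _)
      hu x hx]
    congr 3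
    rw [hk', Nat.cast_one, Real.rpow_neg_one]; field_simp; ring
  | succ r hr ih =>
    obtain ⟨C, a, c, e, h1, h2, -, h3⟩ := ih
    refine ⟨-4 * C * r * (r + 1 - m), -(2 * 0), -((2 * (k + 1 : ℕ) + 8) * 0 + 12 * 0),
      -(2 * (k + 1 : ℕ) * a + 2 * c), by simp, fun h => by simp [h1 (by omega)],
      fun h => by simp [← h], fun x hx => ?_⟩
    rw [Function.iterate_succ_apply', step 0 (g := fun s => C * s ^ (-r : ℝ)) (a := a) (b := 0) (c := c) (d := 0) (e := e)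
      (fun s hs => (Real.hasDerivAt_rpow_const (.inl (by linarith))).const_mul _)
      (fun s hs => ((Real.hasDerivAt_rpow_const (.inl (by linarith))).const_mul _).const_mul _)
      (fun x hx => by rw [h3 x hx]; ring) x hx]
    congr 3
    rw [hk', Nat.cast_succ, neg_add', Real.rpow_sub_one (by linarith) (-r - 1)]; field_simp; ring

theorem result (m : ℕ) (hm : 3 ≤ m) : ∃ V u : (Fin (2 * m) → ℝ) → ℝ,
    MemLp V ⊤ volume ∧ LocallyIntegrable u ∧ Integrable (fun x => Real.exp (2 * m * u x)) ∧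
    (∀ φ, ContDiff ℝ ∞ φ → HasCompactSupport φ →
      ∫ x, u x * nlap^[m] φ x = ∫ x, V x * Real.exp (2 * m * u x) * φ x) ∧
    ¬∃ C, ∀ᵐ x, u x ≤ C := by
  obtain ⟨k, hk⟩ : ∃ k, 2 * m = k + 1 := ⟨2 * m - 1, by omega⟩
  have hk' : ((k + 1 : ℕ) : ℝ) = 2 * m := by exact_mod_cast hk.symm
  rw [hk]
  have m0 : (3 : ℝ) ≤ m := by exact_mod_cast hm
  obtain ⟨u, hu⟩ : ∃ u : (Fin (k + 1) → ℝ) → ℝ, u = fun x => (2 * m : ℝ)⁻¹ *
      Real.log (sq x + expNegInvGlue (1 - sq x)) +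
      -1 * sq x + -1 * (x 0 ^ 2 * sq x) + 1 * x 0 ^ 2 + 1 * x 0 ^ 4 + 0 := ⟨_, rfl⟩
  have s0 : ∀ x : Fin (k + 1) → ℝ, 0 ≤ sq x := fun x => by unfold sq; positivity
  have sp : ∀ x : Fin (k + 1) → ℝ, 0 < sq x + expNegInvGlue (1 - sq x) := fun x => by
    rcases (s0 x).eq_or_lt with e | e
    · rw [← e]; simpa using expNegInvGlue.pos_of_pos one_pos
    · exact add_pos_of_pos_of_nonneg e (expNegInvGlue.nonneg _)
  have sc : ContDiff ℝ ∞ (sq : (Fin (k + 1) → ℝ) → ℝ) := by unfold sq; fun_prop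
  have us : ContDiff ℝ ∞ u := by
    have := (sc.add (expNegInvGlue.contDiff.comp (contDiff_const.sub sc : ContDiff ℝ ∞ fun x => 1 - sq x))).log
      fun x => (sp x).ne'
    rw [hu]; fun_prop
  have Ls : ContDiff ℝ ∞ (nlap^[m] u) := Function.Iterate.rec _ us (fun _ h => Lsm h) m
  refine ⟨fun x => nlap^[m] u x * Real.exp (-(2 * m * u x)), u, Continuous.memLp_top_of_hasCompactSupport
    (by have := Ls.continuous; have := us.continuous; fun_prop) (.intro (isCompact_closedBall 0 1)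
      fun x hx => mul_eq_zero_of_left ?_ _) _, us.continuous.locallyIntegrable, (integ (by omega)).mono'
        (Continuous.aestronglyMeasurable (by have := us.continuous; fun_prop)) (.of_forall fun x => ?_),
    fun φ h1 h2 => ?_, fun ⟨C, hC⟩ => ?_⟩
  · obtain ⟨C, a, c, e, h1, h2, h3, h4⟩ := key hm hk' (u := u) (fun x hx => by
      simp only [hu]; rw [expNegInvGlue.zero_of_nonpos (by linarith), add_zero (sq x)]) m (by omega)
    rw [h4, h2 hm, h3 rfl, (h1 (by omega)).1, (h1 (by omega)).2]; · simp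
    by_contra! hh
    refine hx (mem_closedBall_zero_iff.2 ((pi_norm_le_iff_of_nonneg one_pos.le).2 fun i => ?_))
    exact (sq_le_one_iff_abs_le_one _).1 ((Finset.single_le_sum (f := fun i => x i ^ 2)
      (fun _ _ => sq_nonneg _) (Finset.mem_univ i)).trans hh)
  · obtain ⟨y, hy⟩ : ∃ y, y = ∑ i : Fin k, x i.succ ^ 2 := ⟨_, rfl⟩
    have y0 : 0 ≤ y := by rw [hy]; positivity
    have e : sq x = x 0 ^ 2 + y := by rw [hy, sq, Fin.sum_univ_succ]
    have g : expNegInvGlue (1 - sq x) ≤ 1 := by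
      rw [expNegInvGlue]; split_ifs with h
      · simp
      · exact Real.exp_le_one_iff.2 (neg_nonpos.2 (inv_nonneg.2 (not_le.1 h).le))
    rw [← Real.exp_sum, ← Finset.mul_sum, ← hy, Real.norm_of_nonneg (by positivity),
      show 2 * m * u x = Real.log (sq x + expNegInvGlue (1 - sq x)) + -(2 * m * ((1 + x 0 ^ 2) * y)) by
        simp only [hu]; generalize Real.log _ = l; rw [e]; field_simp; ring, Real.exp_add, Real.exp_log (sp x)]
    have t0 := sq_nonneg (x 0)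
    have := Real.add_one_le_exp y
    calc _ ≤ (1 + x 0 ^ 2) * Real.exp y * Real.exp (-(2 * m * ((1 + x 0 ^ 2) * y))) := by gcongr; nlinarith
      _ ≤ _ := by
        rw [mul_assoc, ← Real.exp_add]; gcongr
        nlinarith [mul_nonneg t0 y0, mul_nonneg (sub_nonneg.2 m0) (add_nonneg y0 (mul_nonneg t0 y0))]
  · rw [ibp us h1 h2]
    congr 1; ext x; rw [mul_assoc (nlap^[m] u x), ← Real.exp_add]; simp
  · have := (isClosed_le us.continuous continuous_const).closure_subset ((Measure.dense_of_ae hC)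
      (Pi.single 0 (Real.exp (m * (|C| + 1)))))
    have e : sq (Pi.single 0 (Real.exp (m * (|C| + 1))) : Fin (k + 1) → ℝ) = Real.exp (m * (|C| + 1)) ^ 2 := by
      simp [sq, Fin.sum_univ_succ]
    simp only [mem_ofPred_eq, hu, e, Pi.single_eq_same] at this
    rw [expNegInvGlue.zero_of_nonpos (sub_nonpos.2 (one_le_pow₀ (Real.one_le_exp (by positivity)))), add_zero (_ ^ 2),
      Real.log_pow, Real.log_exp, show (2 * m : ℝ)⁻¹ * ((2 : ℕ) * (m * (|C| + 1))) = |C| + 1 by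
        push_cast; field_simp] at this
    linarith [le_abs_self C]

end Pool.Agent.Results.MP_885c89_an.No
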